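import Pool.Agent.V11153.LA.Circ2

set_option autoImplicit false

/-!
# Linear arboricity of graphs with a matching in the fibres of a map

`H931R3.LA.la G` is the linear arboricity (the same expression as in the frozen statement S07085).

Proof idea. Let `F 0, …, F (k-1)` be linear forests on `W` with total degree at most `2 k - 2` at
every vertex. By orienting the cycles of the auxiliary 2-regular graph of the free ends one can choose
for every vertex a forest in which it is an end such that no path is chosen at both of its ends. The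
lift of a path together with the matching edges over one of its two ends is a linear forest whatever
the lift looks like (a cycle would project onto a whole path, at whose other end it would have
degree one). For the circulant graphs with differences coprime to `m` the Hamilton cycles of
difference `δ` (each once or twice) are broken at edges that lie on one zigzag path.
-/

namespace Pool.Agent.Results.MP_0a041d_co.FibreMatchings

open SimpleGraph H931R3.LA Pool.Agent.W111.LAR Pool.Agent.V11153.LA Pool.Agent.Y647.LAC

/-- (1) Let `F c`, `c < k`, be linear forests on `W` whose degrees add up to at most `2 k - 2` at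
every vertex, and let `f : V → W` be a map such that every vertex `u` of `X` has at most as many
neighbours over `j ≠ f u` as there are forests containing the edge `f u, j`, and at most one
neighbour over `f u`. Then `la X ≤ k`.
(2) Let `G` be `r`-regular with `la G = ⌈(r + 1) / 2⌉`, and let `f` map the vertices of `X` to the
vertices of `G` such that every vertex has exactly `β` neighbours over every neighbour of its image,
exactly one neighbour over its image, and no others. If `β = 1`, or `r` is odd and `β` is `2` or `3`,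
then `X` satisfies the linear arboricity conjecture.
(3) Let the vertices of `X` be coloured with `m` colours, not necessarily properly, such that every
vertex has at most `β` neighbours of every other colour and at most one of its own colour. Then
`la X ≤ ⌈β m / 2⌉` if `β ≥ 2`, and `la X ≤ ⌊m / 2⌋ + 1` if `β = 1`. If moreover `X` is regular of degree
`β (m - 1) + 1` and `β = 1`, or `β = 2`, or `β = 3` and `m` is even, then `X` satisfies the linear
arboricity conjecture.
(4) Let `X` be a circulant graph on `2 m` vertices of odd degree, that is, its connection set `S`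
contains `m`. If no two elements of `S` differ by `m`, then `X` and all its finite covers satisfy the
conjecture; if `m ≥ 3` and all elements of `S` except `m` are coprime to `m`, then `X` satisfies it.
(5) The conjecture holds for all circulant graphs on `2 p` vertices, `p` an odd prime. -/
theorem result :
    (∀ (V W : Type) [Finite V] [Finite W] (X : SimpleGraph V) (k : ℕ)
      (F : Fin k → SimpleGraph W) (f : V → W), (∀ c, IsLF (F c)) →
      (∀ j, (∑ c, ((F c).neighborSet j).ncard) + 2 ≤ 2 * k) →
      (∀ u j, j ≠ f u → {v | X.Adj u v ∧ f v = j}.ncard ≤ {c | (F c).Adj (f u) j}.ncard) →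
      (∀ u, {v | X.Adj u v ∧ f v = f u}.ncard ≤ 1) → la X ≤ k) ∧
    (∀ (V W : Type) [Finite V] [Finite W] [Nonempty V] (X : SimpleGraph V) (G : SimpleGraph W)
      (r β : ℕ) (f : V → W), 0 < r → (∀ w, (G.neighborSet w).ncard = r) → la G = (r + 2) / 2 →
      (β = 1 ∨ (Odd r ∧ (β = 2 ∨ β = 3))) →
      (∀ u v, X.Adj u v → f u = f v ∨ G.Adj (f u) (f v)) →
      (∀ u j, G.Adj (f u) j → {v | X.Adj u v ∧ f v = j}.ncard = β) →
      (∀ u, {v | X.Adj u v ∧ f v = f u}.ncard = 1) →
      (∀ u, (X.neighborSet u).ncard = β * r + 1) ∧ la X = ((β * r + 1) + 2) / 2) ∧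
    (∀ (V : Type) [Finite V] (X : SimpleGraph V) (m β : ℕ) (f : V → Fin m), 1 ≤ β →
      (∀ u j, j ≠ f u → {v | X.Adj u v ∧ f v = j}.ncard ≤ β) →
      (∀ u, {v | X.Adj u v ∧ f v = f u}.ncard ≤ 1) →
      (2 ≤ β → la X ≤ (β * m + 1) / 2) ∧ (β = 1 → la X ≤ m / 2 + 1) ∧
      (Nonempty V → (β = 1 ∨ β = 2 ∨ (β = 3 ∧ Even m)) →
        (∀ u, (X.neighborSet u).ncard = β * (m - 1) + 1) →
        la X = ((β * (m - 1) + 1) + 2) / 2)) ∧
    (∀ (m : ℕ) [NeZero m] (S : Set (ZMod (2 * m))) (X : SimpleGraph (ZMod (2 * m))),
      (∀ v w, X.Adj v w ↔ w - v ∈ S) → (m : ZMod (2 * m)) ∈ S →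
      (∀ v, (X.neighborSet v).ncard = S.ncard) ∧
      ((∀ s ∈ S, s + (m : ZMod (2 * m)) ∉ S) → Odd S.ncard ∧ la X = (S.ncard + 2) / 2 ∧
        ∀ (W : Type) [Finite W] [Nonempty W] (G : SimpleGraph W) (f : W → ZMod (2 * m)),
          (∀ a b, G.Adj a b → X.Adj (f a) (f b)) →
          (∀ a b c, G.Adj a b → G.Adj a c → f b = f c → b = c) →
          la G ≤ (S.ncard + 2) / 2 ∧
            ((∀ a, (G.neighborSet a).ncard = S.ncard) → la G = (S.ncard + 2) / 2)) ∧
      (3 ≤ m → (∀ s ∈ S, s ≠ (m : ZMod (2 * m)) → Nat.Coprime s.val m) →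
        Odd S.ncard ∧ la X = (S.ncard + 2) / 2)) ∧
    (∀ (p : ℕ), p.Prime → p ≠ 2 → ∀ (S : Set (ZMod (2 * p))) (X : SimpleGraph (ZMod (2 * p))),
      (∀ v w, X.Adj v w ↔ w - v ∈ S) → S.Nonempty → la X = (S.ncard + 2) / 2) := by
  have h4 : ∀ (m : ℕ) [NeZero m] (S : Set (ZMod (2 * m))) (X : SimpleGraph (ZMod (2 * m))),
      (∀ v w, X.Adj v w ↔ w - v ∈ S) → (m : ZMod (2 * m)) ∈ S →
      (∀ v, (X.neighborSet v).ncard = S.ncard) ∧
      ((∀ s ∈ S, s + (m : ZMod (2 * m)) ∉ S) → Odd S.ncard ∧ la X = (S.ncard + 2) / 2 ∧
        ∀ (W : Type) [Finite W] [Nonempty W] (G : SimpleGraph W) (f : W → ZMod (2 * m)),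
          (∀ a b, G.Adj a b → X.Adj (f a) (f b)) →
          (∀ a b c, G.Adj a b → G.Adj a c → f b = f c → b = c) →
          la G ≤ (S.ncard + 2) / 2 ∧
            ((∀ a, (G.neighborSet a).ncard = S.ncard) → la G = (S.ncard + 2) / 2)) ∧
      (3 ≤ m → (∀ s ∈ S, s ≠ (m : ZMod (2 * m)) → Nat.Coprime s.val m) →
        Odd S.ncard ∧ la X = (S.ncard + 2) / 2) := by
    intro m _ S0 X hX ht
    have hm : 0 < m := Nat.pos_of_ne_zero (NeZero.ne m)
    have : NeZero (2 * m) := ⟨by omega⟩
    classical
    have hfin : S0.Finite := Set.toFinite S0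
    obtain ⟨S, rfl⟩ := hfin.exists_finset_coe
    rw [Set.ncard_coe_finset]
    have hX' : ∀ v w, X.Adj v w ↔ w - v ∈ S := by
      intro v w
      rw [hX, Finset.mem_coe]
    have ht' : (m : ZMod (2 * m)) ∈ S := by exact_mod_cast ht
    have hpos : 0 < S.card := Finset.card_pos.2 ⟨_, ht'⟩
    have hdeg := cay_deg_add' S X hX'
    refine ⟨hdeg, ?_, ?_⟩
    · intro hdis
      obtain ⟨hodd, hcov⟩ := circ_simple S X hX' ht' (fun s hs hs' =>
        hdis s (by exact_mod_cast hs) (by exact_mod_cast hs'))
      have hmain : ∀ (W : Type) [Finite W] [Nonempty W] (G : SimpleGraph W)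
          (f : W → ZMod (2 * m)), (∀ a b, G.Adj a b → X.Adj (f a) (f b)) →
          (∀ a b c, G.Adj a b → G.Adj a c → f b = f c → b = c) →
          la G ≤ (S.card + 2) / 2 ∧
            ((∀ a, (G.neighborSet a).ncard = S.card) → la G = (S.card + 2) / 2) := by
        intro W _ _ G f hom inj
        have h := hcov W G f hom inj
        exact ⟨la_le h, fun hreg => la_eq_of_cov hpos hreg h⟩
      exact ⟨hodd, (hmain _ X id (fun a b h => h) (fun a b c _ _ h => h)).2 hdeg, hmain⟩
    · intro hm3 hcop
      obtain ⟨hodd, hcov⟩ := circ_coprime hm3 S X hX' ht' (fun s hs => hcop s (by exact_mod_cast hs))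
      exact ⟨hodd, la_eq_of_cov hpos hdeg hcov⟩
  refine ⟨?_, ?_, ?_, h4, ?_⟩
  · intro V W _ _ X k F f hF hdeg h h1
    exact la_le (cov_multi X k F hF hdeg f h h1)
  · intro V W _ _ _ X G r β f hr hreg hla hβ hom h h1
    classical
    have hdegX : ∀ u, (X.neighborSet u).ncard = β * r + 1 := by
      intro u
      have e1 : (X.neighborSet u).ncard =
          ∑ j ∈ insert (f u) (Set.toFinite (G.neighborSet (f u))).toFinset,
            {v | X.Adj u v ∧ f v = j}.ncard := by
        rw [Set.ncard_eq_toFinset_card _ (Set.toFinite _)]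
        rw [Finset.card_eq_sum_card_fiberwise (f := f)
          (t := insert (f u) (Set.toFinite (G.neighborSet (f u))).toFinset)]
        · refine Finset.sum_congr rfl fun j _ => ?_
          rw [← Set.ncard_coe_finset]
          congr 1
          ext v
          simp
        · intro v hv
          simp only [Set.Finite.coe_toFinset, mem_neighborSet] at hv
          rcases hom u v hv with h2 | h2
          · simp [h2]
          · simp [h2]
      rw [e1, Finset.sum_insert (by simp), h1 u]
      have e2 : ∀ j ∈ (Set.toFinite (G.neighborSet (f u))).toFinset,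
          {v | X.Adj u v ∧ f v = j}.ncard = β := by
        intro j hj
        rw [Set.Finite.mem_toFinset] at hj
        exact h u j hj
      rw [Finset.sum_congr rfl e2, Finset.sum_const, smul_eq_mul,
        ← Set.ncard_eq_toFinset_card _ (Set.toFinite _), hreg, mul_comm, add_comm]
    refine ⟨hdegX, ?_⟩
    have hcovG : Cov G (la G) := la_le_iff.1 le_rfl
    have hle : ∀ u j, j ≠ f u → {v | X.Adj u v ∧ f v = j}.ncard ≤ β := by
      intro u j hj
      by_cases hadj : G.Adj (f u) j
      · exact (h u j hadj).le
      · have : {v | X.Adj u v ∧ f v = j} = ∅ := by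
          ext v
          simp only [Set.mem_ofPred_eq, Set.mem_empty_iff_false, iff_false]
          rintro ⟨h2, h3⟩
          rcases hom u v h2 with h4 | h4
          · exact hj (h3 ▸ h4.symm)
          · exact hadj (h3 ▸ h4)
        rw [this, Set.ncard_empty]
        exact Nat.zero_le _
    have hfin : ∀ k, Cov G k → β * r + 2 ≤ 2 * (β * k) → β * k ≤ ((β * r + 1) + 2) / 2 →
        la X = ((β * r + 1) + 2) / 2 := by
      intro k hk h2 h3
      have h5 := cov_blow X G k β hk (fun j => by rw [hreg]; exact h2) f hom hle
        (fun u => (h1 u).le)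
      exact la_eq_of_cov (by omega) hdegX (h5.mono h3)
    rcases hβ with rfl | ⟨hodd, rfl | rfl⟩
    · refine hfin ((r + 3) / 2) (hcovG.mono (by omega)) (by omega) (by omega)
    · obtain ⟨q, rfl⟩ := hodd
      refine hfin (q + 1) (hcovG.mono (by omega)) (by omega) (by omega)
    · obtain ⟨q, rfl⟩ := hodd
      refine hfin (q + 1) (hcovG.mono (by omega)) (by omega) (by omega)
  · intro V _ X m β f hβ h h1
    have hA : 2 ≤ β → Nonempty V → Cov X ((β * m + 1) / 2) := by
      rintro h2 ⟨v⟩
      have hm : 0 < m := by have := (f v).2; omega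
      refine cov_frugal_one X m β _ f le_rfl ?_ h h1
      obtain ⟨q, rfl⟩ : ∃ q, m = q + 1 := ⟨m - 1, by omega⟩
      have e1 : β * (q + 1) = β * q + β := by ring
      have e2 : q + 1 - 1 = q := rfl
      rw [e2]
      omega
    have hB : β = 1 → Cov X (m / 2 + 1) := by
      rintro rfl
      exact cov_frugal_one X m 1 _ f (by omega) (by omega) h h1
    have hE : ¬ Nonempty V → la X ≤ 0 := by
      intro hV
      rw [not_nonempty_iff] at hV
      exact la_le ⟨Fin.elim0, fun i => i.elim0, Subsingleton.elim _ _⟩
    refine ⟨?_, ?_, ?_⟩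
    · intro h2
      by_cases hV : Nonempty V
      · exact la_le (hA h2 hV)
      · exact (hE hV).trans (Nat.zero_le _)
    · intro h2
      exact la_le (hB h2)
    · intro hV hβ' hreg
      obtain ⟨v⟩ := hV
      have hne : Nonempty V := ⟨v⟩
      have hm : 0 < m := by have := (f v).2; omega
      refine la_eq_of_cov (by omega) hreg ?_
      rcases hβ' with rfl | rfl | ⟨rfl, hev⟩
      · exact (hB rfl).mono (by omega)
      · exact (hA le_rfl hne).mono (by omega)
      · obtain ⟨q, rfl⟩ := hev
        exact (hA (by omega) hne).mono (by omega)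
  · intro p hp hp2 S X hX hne
    have hp3 : 3 ≤ p := by
      have := hp.two_le
      omega
    have : NeZero p := ⟨by omega⟩
    have : NeZero (2 * p) := ⟨by omega⟩
    by_cases ht : (p : ZMod (2 * p)) ∈ S
    · refine ((h4 p S X hX ht).2.2 hp3 ?_).2
      intro s hs hsp
      have hv : ((s.val : ℕ) : ZMod (2 * p)) = s := ZMod.natCast_zmod_val s
      have hlt := ZMod.val_lt s
      refine Nat.Coprime.symm ((Nat.Prime.coprime_iff_not_dvd hp).2 ?_)
      rintro ⟨k, hk⟩
      have hk2 : k < 2 := by
        by_contra hcon
        have : p * 2 ≤ p * k := Nat.mul_le_mul_left p (by omega)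
        omega
      have : k = 0 ∨ k = 1 := by omega
      rcases this with rfl | rfl
      · have h0 : (0 : ZMod (2 * p)) ∈ S := by
          rw [hk] at hv
          have : s = 0 := by rw [← hv]; simp
          rwa [this] at hs
        exact X.irrefl ((hX 0 0).2 (by rwa [sub_zero]))
      · apply hsp
        rw [← hv, hk]; simp
    · classical
      have hfin : S.Finite := Set.toFinite S
      obtain ⟨S', rfl⟩ := hfin.exists_finset_coe
      rw [Set.ncard_coe_finset]
      have hX' : ∀ v w, X.Adj v w ↔ w - v ∈ S' := by
        intro v w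
        rw [hX, Finset.mem_coe]
      have hneg : ∀ x ∈ S', -x ∈ S' := by
        intro x hx
        have h1 : X.Adj 0 x := (hX' 0 x).2 (by rwa [sub_zero])
        have h2 := (hX' x 0).1 h1.symm
        rwa [zero_sub] at h2
      have hinv : ∀ s ∈ S', s + s ≠ 0 := by
        intro s hs h
        have hv : ((s.val : ℕ) : ZMod (2 * p)) = s := ZMod.natCast_zmod_val s
        have h3 : ((s.val + s.val : ℕ) : ZMod (2 * p)) = 0 := by
          push_cast; rw [hv]; exact h
        rw [ZMod.natCast_eq_zero_iff] at h3
        obtain ⟨k, hk⟩ := h3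
        have hlt := ZMod.val_lt s
        have hk' : s.val = p * k := by nlinarith
        have hk2 : k < 2 := by
          by_contra hcon
          have : p * 2 ≤ p * k := Nat.mul_le_mul_left p (by omega)
          omega
        have : k = 0 ∨ k = 1 := by omega
        rcases this with rfl | rfl
        · have h0 : s = 0 := by rw [← hv, hk']; simp
          rw [h0] at hs
          exact X.irrefl ((hX' 0 0).2 (by rwa [sub_zero]))
        · apply ht
          have h0 : s = (p : ZMod (2 * p)) := by rw [← hv, hk']; simp
          rw [← h0]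
          exact_mod_cast hs
      have hLD := ld_even (2 * p) S' hneg hinv X hX'
      have hcov : Cov X (S'.card / 2 + 1) :=
        hLD.lift X id (fun a b h => h) (fun a b c _ _ h => h)
      have hpos : 0 < S'.card := Finset.card_pos.2 (by exact_mod_cast hne)
      exact la_eq_of_cov hpos (cay_deg_add' S' X hX') (hcov.mono (by omega))

end Pool.Agent.Results.MP_0a041d_co.FibreMatchings
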